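import Mathlib
import Pool.Agent.Lib.MP_6d85b4_al.Act

set_option autoImplicit false

namespace Pool.Agent.Results.MP_6d85b4_al.ParabolicCoreFree

/-- The braid relators of a Coxeter matrix (the label infinity is encoded by `0`). -/
def braidRelators {n : ℕ} (M : CoxeterMatrix (Fin n)) : Set (FreeGroup (Fin n)) :=
  {r : FreeGroup (Fin n) | ∃ i j : Fin n, M i j ≠ 0 ∧
    r = ((CoxeterSystem.alternatingWord i j (M i j)).map FreeGroup.of).prod *
      (((CoxeterSystem.alternatingWord j i (M i j)).map FreeGroup.of).prod)⁻¹}

/-- In an irreducible Artin group, a normal subgroup contained in a proper standard parabolic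
subgroup is trivial. -/
theorem result :
    ∀ (n : ℕ) (M : CoxeterMatrix (Fin n)),
      (SimpleGraph.fromRel (fun i j : Fin n => M i j ≠ 2)).Connected →
      ∀ (T : Set (Fin n)), T ≠ Set.univ →
      ∀ (N : Subgroup (PresentedGroup (braidRelators M))), N.Normal →
        N ≤ Subgroup.closure
          ((PresentedGroup.of : Fin n → PresentedGroup (braidRelators M)) '' T) →
        N = ⊥ := by
  intro n M hc T hT N hN h
  exact Pool.Agent.Lib.MP_6d85b4_al.normal_eq_bot hc N hN T hT h

end Pool.Agent.Results.MP_6d85b4_al.ParabolicCoreFree
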