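import Mathlib
import Pool.Agent.Lib.MP_6d85b4_al.Icc.Rel6

set_option autoImplicit false

namespace Pool.Agent.Results.MP_6d85b4_al.ParabolicPower

/-- The braid relators of a Coxeter matrix (the label infinity is encoded by `0`, as in
Mathlib). -/
def braidRelators {S : Type} (M : CoxeterMatrix S) : Set (FreeGroup S) :=
  {r : FreeGroup S | ∃ s t : S, M s t ≠ 0 ∧
    r = ((CoxeterSystem.alternatingWord s t (M s t)).map FreeGroup.of).prod *
      (((CoxeterSystem.alternatingWord t s (M s t)).map FreeGroup.of).prod)⁻¹}

/-- Let `X` be an irreducible non-spherical set of generators of an Artin group with labels in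
`{2, 3, 4, 5}`. An element commutes with a positive power of each generator in `X` if and only if
it lies in the subgroup generated by the generators commuting with all of `X`. -/
theorem result :
    ∀ (S : Type) [Finite S] (M : CoxeterMatrix S) (X : Set S),
      (∀ s t : S, s ≠ t → M s t = 2 ∨ M s t = 3 ∨ M s t = 4 ∨ M s t = 5) →
      ((SimpleGraph.fromRel (fun s t : S => M s t ≠ 2)).induce X).Connected →
      Infinite (Subgroup.closure (M.simple '' X)) →
      ∀ z : PresentedGroup (braidRelators M),
        (∀ s ∈ X, ∃ k : ℕ, 0 < k ∧
          z * PresentedGroup.of s ^ k = PresentedGroup.of s ^ k * z) ↔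
        z ∈ Subgroup.closure ((PresentedGroup.of : S → PresentedGroup (braidRelators M)) ''
          {t | ∀ s ∈ X, M s t = 2}) := by
  intro S _ M X h hc hi z
  classical
  have := Fintype.ofFinite S
  exact Pool.Agent.Lib.MP_6d85b4_al.Icc.par_pow_iff hc hi h z

end Pool.Agent.Results.MP_6d85b4_al.ParabolicPower
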