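import Mathlib
import Pool.Agent.Lib.MP_6d85b4_al.Icc.Cor

set_option autoImplicit false

namespace Pool.Agent.Results.MP_6d85b4_al.VirtualCentre

/-- The braid relators of a Coxeter matrix (the label infinity is encoded by `0`, as in
Mathlib). -/
def braidRelators {S : Type} (M : CoxeterMatrix S) : Set (FreeGroup S) :=
  {r : FreeGroup S | ∃ s t : S, M s t ≠ 0 ∧
    r = ((CoxeterSystem.alternatingWord s t (M s t)).map FreeGroup.of).prod *
      (((CoxeterSystem.alternatingWord t s (M s t)).map FreeGroup.of).prod)⁻¹}

/-- In an irreducible non-spherical Artin group, an element commuting with a positive power of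
every conjugate of every standard generator is trivial. -/
theorem result :
    ∀ (S : Type) [Finite S] (M : CoxeterMatrix S),
      (SimpleGraph.fromRel (fun s t : S => M s t ≠ 2)).Connected →
      Infinite M.Group →
      ∀ z : PresentedGroup (braidRelators M),
        (∀ (g : PresentedGroup (braidRelators M)) (s : S), ∃ k : ℕ, 0 < k ∧
          z * (g * PresentedGroup.of s * g⁻¹) ^ k = (g * PresentedGroup.of s * g⁻¹) ^ k * z) →
        z = 1 := by
  intro S _ M hc hi z hz
  classical
  have := Fintype.ofFinite S
  exact Pool.Agent.Lib.MP_6d85b4_al.Icc.eq_one_of_powers hc hi hz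

end Pool.Agent.Results.MP_6d85b4_al.VirtualCentre
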